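import Pool.Agent.Helper72.T1.Comp

/-!
# Squares with holes

Disjoint integer squares in a square of side `m`.  A column passes through a hole with the same map, and so does a row.
Two consecutive antidiagonals are identified if there is a hole between them.  If the sum of the sides and the
number of the antidiagonals which meet a hole is less than `3 m`, then `M ≤ τ` implies `M = τ`.
-/

set_option autoImplicit false
set_option linter.unusedSectionVars false

open Finset

namespace Pool.Agent.Helper71.PC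

/-- the number of the levels below `s` without holes -/
def lev (D : Finset ℕ) (s : ℕ) : ℕ := ((range s).filter (· ∉ D)).card

theorem lev_succ_mem {D : Finset ℕ} {s : ℕ} (h : s ∈ D) : lev D (s + 1) = lev D s := by
  unfold lev
  rw [range_add_one, filter_insert, if_neg (by simpa using h)]

theorem lev_succ_not {D : Finset ℕ} {s : ℕ} (h : s ∉ D) : lev D (s + 1) = lev D s + 1 := by
  unfold lev
  rw [range_add_one, filter_insert, if_pos h, card_insert_of_notMem (by simp)]

theorem lev_le {D : Finset ℕ} (s : ℕ) : lev D s ≤ lev D (s + 1) ∧ lev D (s + 1) ≤ lev D s + 1 := by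
  by_cases h : s ∈ D
  · rw [lev_succ_mem h]; omega
  · rw [lev_succ_not h]; omega

theorem lev_mono {D : Finset ℕ} {s t : ℕ} (h : s ≤ t) : lev D s ≤ lev D t := by
  induction t, h using Nat.le_induction with
  | base => exact le_refl _
  | succ t _ ih => exact ih.trans (lev_le t).1

theorem lev_eq {D : Finset ℕ} {s t : ℕ} (h : s ≤ t) (hD : ∀ r, s ≤ r → r < t → r ∈ D) : lev D t = lev D s := by
  induction t, h using Nat.le_induction with
  | base => rfl
  | succ t ht ih => rw [lev_succ_mem (hD t ht (by omega)), ih fun r h1 h2 => hD r h1 (by omega)]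

theorem lev_surj {D : Finset ℕ} (n v : ℕ) (hv : v ≤ lev D n) : ∃ s ≤ n, lev D s = v := by
  induction n with
  | zero => exact ⟨0, le_refl _, by have : lev D 0 = 0 := by simp [lev]
                                    omega⟩
  | succ n ih =>
    by_cases h : v ≤ lev D n
    · obtain ⟨s, h1, h2⟩ := ih h
      exact ⟨s, by omega, h2⟩
    · exact ⟨n + 1, le_refl _, by have := (lev_le (D := D) n).2; omega⟩

theorem lev_card (D : Finset ℕ) (n : ℕ) : n ≤ lev D n + D.card := by
  have h1 := card_filter_add_card_filter_not (s := range n) (· ∉ D)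
  have h2 : ((range n).filter (fun x => ¬ x ∉ D)).card ≤ D.card := card_le_card fun x hx => by
    simpa using (mem_filter.1 hx).2
  rw [card_range] at h1
  unfold lev
  omega

/-- the start of a cell in its column: column and height -/
def key {E : Type*} {m n : ℕ} {sz : E → ℕ} (al yt : E → ℕ) : (Σ e, Fin (sz e)) ⊕ Fin m → ℕ × ℕ
  | Sum.inl w => (al w.1 + w.2, yt w.1)
  | Sum.inr i => (i, n)

/-- the end of a cell in its column: column and height -/
def keyT {E : Type*} {m : ℕ} {sz : E → ℕ} (al yt : E → ℕ) : (Σ e, Fin (sz e)) ⊕ Fin m → ℕ × ℕ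
  | Sum.inl w => (al w.1 + w.2, yt w.1 + sz w.1)
  | Sum.inr i => (i, 0)

/-- the square `e` covers the point `(i, j)` -/
def Cov {E : Type*} (al yt sz : E → ℕ) (e : E) (i j : ℕ) : Prop :=
  (al e ≤ i ∧ i < al e + sz e) ∧ (yt e ≤ j ∧ j < yt e + sz e)

section col

variable {E : Type*} [Fintype E] {k h : ℕ} {al yt sz : E → ℕ}

/-- the next cell in the column -/
theorem next_col (hal : ∀ e, al e + sz e ≤ k) (hyt : ∀ e, yt e + sz e ≤ h) (hsz : ∀ e, 0 < sz e)
    (hdisj : ∀ e e' i j, Cov al yt sz e i j → Cov al yt sz e' i j → e = e') :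
    ∃ a : Equiv.Perm ((Σ e, Fin (sz e)) ⊕ Fin k), ∀ w, (key (n := h) al yt (a w)).1 = (keyT al yt w).1 ∧
      (keyT al yt w).2 ≤ (key (n := h) al yt (a w)).2 ∧ (key (n := h) al yt (a w)).2 ≤ h ∧
      ∀ j, (keyT al yt w).2 ≤ j → j < (key (n := h) al yt (a w)).2 → ∀ e, ¬ Cov al yt sz e (keyT al yt w).1 j := by
  classical
  have hex : ∀ w : (Σ e, Fin (sz e)) ⊕ Fin k, ∃ w' : (Σ e, Fin (sz e)) ⊕ Fin k,
      (key (n := h) al yt w').1 = (keyT al yt w).1 ∧ (keyT al yt w).2 ≤ (key (n := h) al yt w').2 ∧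
      (key (n := h) al yt w').2 ≤ h ∧
      ∀ j, (keyT al yt w).2 ≤ j → j < (key (n := h) al yt w').2 → ∀ e, ¬ Cov al yt sz e (keyT al yt w).1 j := by
    intro w
    have hk : (keyT al yt w).1 < k := by
      rcases w with ⟨e, c⟩ | i
      · have := hal e
        have := c.2
        simp only [keyT]
        omega
      · exact i.2
    have hh : (keyT al yt w).2 ≤ h := by
      rcases w with ⟨e, c⟩ | i
      · have := hyt e
        simp only [keyT]
        omega
      · exact Nat.zero_le _
    have hP : ∃ y, (keyT al yt w).2 ≤ y ∧ (y = h ∨ ∃ e, Cov al yt sz e (keyT al yt w).1 y) := ⟨h, hh, Or.inl rfl⟩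
    set y := Nat.find hP with hy
    obtain ⟨h1, h2⟩ := Nat.find_spec hP
    have h3 : ∀ j, (keyT al yt w).2 ≤ j → j < y → ∀ e, ¬ Cov al yt sz e (keyT al yt w).1 j := by
      intro j hj1 hj2 e he
      exact Nat.find_min hP hj2 ⟨hj1, Or.inr ⟨e, he⟩⟩
    have h4 : y ≤ h := Nat.find_le ⟨hh, Or.inl rfl⟩
    by_cases hyh : y = h
    · refine ⟨Sum.inr ⟨(keyT al yt w).1, hk⟩, rfl, ?_, ?_, ?_⟩
      · simp only [key]
        exact hh
      · simp only [key]
        exact le_refl _
      · simp only [key]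
        rw [← hyh]
        exact h3
    · rcases h2 with h2 | ⟨e, he⟩
      · exact absurd h2 hyh
      obtain ⟨⟨h5, h6⟩, h7, h8⟩ := he
      have h9 : yt e = y := by
        by_contra hne
        have h10 : yt e < y := by omega
        by_cases h11 : y = (keyT al yt w).2
        · rcases w with ⟨e', c⟩ | i
          · simp only [keyT] at h5 h6 h11
            have := hdisj e e' (al e' + c) (y - 1) ⟨⟨h5, h6⟩, by omega, by omega⟩
              ⟨⟨by omega, by have := c.2; omega⟩, by have := hsz e'; omega, by have := hsz e'; omega⟩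
            subst this
            omega
          · simp only [keyT] at h11
            omega
        · exact h3 (y - 1) (by omega) (by omega) e ⟨⟨h5, h6⟩, by omega, by omega⟩
      refine ⟨Sum.inl ⟨e, ⟨(keyT al yt w).1 - al e, by omega⟩⟩, ?_, ?_, ?_, ?_⟩
      · simp only [key]
        omega
      · simp only [key]
        omega
      · simp only [key]
        omega
      · simp only [key]
        rw [h9]
        exact h3
  choose f hf1 hf2 hf3 hf4 using hex
  have hinjT : Function.Injective (keyT (sz := sz) (m := k) al yt) := by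
    rintro (⟨e, c⟩ | i) (⟨e', c'⟩ | i') h
    · simp only [keyT, Prod.mk.injEq] at h
      obtain ⟨h1, h2⟩ := h
      have hc := c.2
      have hc' := c'.2
      have s1 := hsz e
      have s2 := hsz e'
      have hee : e = e' := hdisj e e' (al e + c) (yt e + sz e - 1)
        ⟨⟨by omega, by omega⟩, by omega, by omega⟩ ⟨⟨by omega, by omega⟩, by omega, by omega⟩
      subst hee
      have : c = c' := Fin.ext (by omega)
      rw [this]
    · simp only [keyT, Prod.mk.injEq] at h
      have := hsz e
      omega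
    · simp only [keyT, Prod.mk.injEq] at h
      have := hsz e'
      omega
    · simp only [keyT, Prod.mk.injEq] at h
      rw [Fin.ext h.1]
  have hlast : ∀ w w' : (Σ e, Fin (sz e)) ⊕ Fin k, f w = f w' → ¬ (keyT al yt w).2 < (keyT al yt w').2 := by
    intro w w' hww hlt
    have h1 := hf1 w
    rw [hww, hf1 w'] at h1
    have h2 := hf2 w'
    rw [← hww] at h2
    rcases w' with ⟨e, c⟩ | i
    · have h3 := hsz e
      refine hf4 w ((keyT al yt (Sum.inl ⟨e, c⟩ : (Σ e, Fin (sz e)) ⊕ Fin k)).2 - 1) ?_ ?_ e ?_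
      · simp only [keyT] at hlt ⊢
        omega
      · simp only [keyT] at h2 ⊢
        omega
      · rw [← h1]
        simp only [keyT]
        exact ⟨⟨by omega, by have := c.2; omega⟩, by omega, by omega⟩
    · simp only [keyT] at hlt
      omega
  have hfi : Function.Injective f := by
    intro w w' hww
    apply hinjT
    refine Prod.ext ?_ ?_
    · rw [← hf1 w, ← hf1 w', hww]
    · have h1 := hlast w w' hww
      have h2 := hlast w' w hww.symm
      omega
  refine ⟨Equiv.ofBijective f (Finite.injective_iff_bijective.1 hfi), fun w => ?_⟩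
  rw [Equiv.ofBijective_apply]
  exact ⟨hf1 w, hf2 w, hf3 w, hf4 w⟩

/-- a set of cells closed under `next in the column` meets the outer cells -/
theorem col_outer (hyt : ∀ e, yt e + sz e ≤ h) (hsz : ∀ e, 0 < sz e) {a : Equiv.Perm ((Σ e, Fin (sz e)) ⊕ Fin k)}
    (ha : ∀ w, (key (n := h) al yt (a w)).1 = (keyT al yt w).1 ∧ (keyT al yt w).2 ≤ (key (n := h) al yt (a w)).2)
    {C : Set ((Σ e, Fin (sz e)) ⊕ Fin k)} (hC : ∀ w ∈ C, a w ∈ C) {w} (hw : w ∈ C) : ∃ i : Fin k, Sum.inr i ∈ C := by
  have key' : ∀ n : ℕ, ∀ w ∈ C, h - (keyT al yt w).2 = n → ∃ i : Fin k, (Sum.inr i : (Σ e, Fin (sz e)) ⊕ Fin k) ∈ C := by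
    intro n
    induction n using Nat.strong_induction_on with
    | _ n ih =>
      intro w hw hn
      rcases w with w | i
      · have h1 := hC _ hw
        have h2 := (ha (Sum.inl w)).2
        rcases hw' : a (Sum.inl w) with w' | i'
        · rw [hw'] at h1 h2
          simp only [key, keyT] at h2 hn
          have h3 := hsz w'.1
          have h4 := hyt w'.1
          exact ih (h - (keyT al yt (Sum.inl w' : (Σ e, Fin (sz e)) ⊕ Fin k)).2) (by simp only [keyT]; omega) _ h1 rfl
        · rw [hw'] at h1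
          exact ⟨i', h1⟩
      · exact ⟨i, hw⟩
  exact key' _ w hw rfl

end col

/-- **Squares with holes** -/
theorem holes {E X : Type*} [Fintype E] [LinearOrder X] {m : ℕ} (hm : 0 < m) {al yt sz : E → ℕ}
    (hsz : ∀ e, 0 < sz e) (hal : ∀ e, al e + sz e ≤ m) (hyt : ∀ e, yt e + sz e ≤ m)
    (hdisj : ∀ e e' i j, Cov al yt sz e i j → Cov al yt sz e' i j → e = e')
    (D : Finset ℕ) (hD : ∀ i < m, ∀ j < m, (∀ e, ¬ Cov al yt sz e i j) → i + j ∈ D)
    (hsum : ∑ e, sz e + D.card < 3 * m)
    (St Sh Tl Tr : E → X ≃o X) (τ M : X ≃o X)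
    (H : ∀ e x, Sh e ((St e).symm x) ≤ Tr e ((Tl e).symm x))
    (hcol : ∀ e e' i, al e ≤ i → i < al e + sz e → al e' ≤ i → i < al e' + sz e' → yt e + sz e ≤ yt e' →
      (∀ j, yt e + sz e ≤ j → j < yt e' → ∀ e'', ¬ Cov al yt sz e'' i j) → ∀ x, St e' x ≤ Sh e x)
    (hbot : ∀ e i, al e ≤ i → i < al e + sz e → (∀ j < yt e, ∀ e', ¬ Cov al yt sz e' i j) → ∀ x, St e x ≤ x)
    (htop : ∀ e i, al e ≤ i → i < al e + sz e → (∀ j, yt e + sz e ≤ j → j < m → ∀ e', ¬ Cov al yt sz e' i j) →
      ∀ x, τ x ≤ Sh e x)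
    (hcol0 : ∀ i < m, (∀ j < m, ∀ e, ¬ Cov al yt sz e i j) → ∀ x, τ x ≤ x)
    (hrow : ∀ e e' j, yt e ≤ j → j < yt e + sz e → yt e' ≤ j → j < yt e' + sz e' → al e + sz e ≤ al e' →
      (∀ i, al e + sz e ≤ i → i < al e' → ∀ e'', ¬ Cov al yt sz e'' i j) → ∀ x, Tr e x ≤ Tl e' x)
    (hleft : ∀ e j, yt e ≤ j → j < yt e + sz e → (∀ i < al e, ∀ e', ¬ Cov al yt sz e' i j) → ∀ x, x ≤ Tl e x)
    (hright : ∀ e j, yt e ≤ j → j < yt e + sz e → (∀ i, al e + sz e ≤ i → i < m → ∀ e', ¬ Cov al yt sz e' i j) →
      ∀ x, Tr e x ≤ M x)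
    (hrow0 : ∀ j < m, (∀ i < m, ∀ e, ¬ Cov al yt sz e i j) → ∀ x, x ≤ M x)
    (hMτ : ∀ x, M x ≤ τ x) : ∀ x, M x = τ x := by
  classical
  have hsw : ∀ e i j, Cov yt al sz e i j ↔ Cov al yt sz e j i := fun e i j => and_comm
  obtain ⟨a, ha⟩ := next_col (h := m) hal hyt hsz hdisj
  obtain ⟨b, hb⟩ := next_col (h := m) (al := yt) (yt := al) hyt hal hsz
    (fun e e' i j h1 h2 => hdisj e e' j i ((hsw _ _ _).1 h1) ((hsw _ _ _).1 h2))
  -- labels and times
  have hp0 : ∀ w : (Σ e, Fin (sz e)) ⊕ Fin m, (key (n := m) al yt w).1 < m := by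
    rintro (⟨e, c⟩ | i)
    · have := hal e
      have := c.2
      simp only [key]
      omega
    · exact i.2
  have hq0 : ∀ w : (Σ e, Fin (sz e)) ⊕ Fin m, (key (n := m) yt al w).1 < m := by
    rintro (⟨e, c⟩ | i)
    · have := hyt e
      have := c.2
      simp only [key]
      omega
    · exact i.2
  have hz0 : ∀ w : (Σ e, Fin (sz e)) ⊕ Fin m, (key (n := m) al yt w).1 + (key (n := m) al yt w).2 ≤ 2 * m - 1 := by
    rintro (⟨e, c⟩ | i)
    · have := hal e
      have := hyt e
      have := c.2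
      simp only [key]
      omega
    · have := i.2
      simp only [key]
      omega
  have hzz : ∀ w : (Σ e, Fin (sz e)) ⊕ Fin m, (key (n := m) al yt w).1 + (key (n := m) al yt w).2 =
      (key (n := m) yt al w).1 + (key (n := m) yt al w).2 := by
    rintro (⟨e, c⟩ | i)
    · simp only [key]; omega
    · simp only [key]
  have hzT : ∀ w : (Σ e, Fin (sz e)) ⊕ Fin m, (keyT al yt w).1 + (keyT al yt w).2 =
      (keyT yt al w).1 + (keyT yt al w).2 := by
    rintro (⟨e, c⟩ | i)
    · simp only [keyT]; omega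
    · simp only [keyT]
  have hkT : ∀ (al yt : E → ℕ) (w : (Σ e, Fin (sz e)) ⊕ Fin m), (keyT al yt w).1 = (key (n := m) al yt w).1 := by
    rintro al yt (⟨e, c⟩ | i) <;> rfl
  have hTk : ∀ w : (Σ e, Fin (sz e)) ⊕ Fin m, (keyT al yt w).1 < m := fun w => by rw [hkT]; exact hp0 w
  have hTk' : ∀ w : (Σ e, Fin (sz e)) ⊕ Fin m, (keyT yt al w).1 < m := fun w => by rw [hkT]; exact hq0 w
  -- the level of the next cell
  have hla : ∀ w, lev D ((key (n := m) al yt (a w)).1 + (key (n := m) al yt (a w)).2) =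
      lev D ((keyT al yt w).1 + (keyT al yt w).2) := by
    intro w
    obtain ⟨h1, h2, h3, h4⟩ := ha w
    rw [h1]
    refine lev_eq (by omega) fun r h5 h6 => ?_
    have h7 := hD (keyT al yt w).1 (hTk w) (r - (keyT al yt w).1) (by omega) (h4 _ (by omega) (by omega))
    rwa [show (keyT al yt w).1 + (r - (keyT al yt w).1) = r by omega] at h7
  have hlb : ∀ w, lev D ((key (n := m) yt al (b w)).1 + (key (n := m) yt al (b w)).2) =
      lev D ((keyT yt al w).1 + (keyT yt al w).2) := by
    intro w
    obtain ⟨h1, h2, h3, h4⟩ := hb w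
    rw [h1]
    refine lev_eq (by omega) fun r h5 h6 => ?_
    have h7 := hD (r - (keyT yt al w).1) (by omega) (keyT yt al w).1 (hTk' w)
      (fun e he => h4 _ (by omega) (by omega) e ((hsw _ _ _).2 he))
    rwa [show (r - (keyT yt al w).1) + (keyT yt al w).1 = r by omega] at h7
  set p : (Σ e, Fin (sz e)) ⊕ Fin m → Fin m := fun w => ⟨(key (n := m) al yt w).1, hp0 w⟩ with hp
  set q : (Σ e, Fin (sz e)) ⊕ Fin m → Fin m := fun w => ⟨(key (n := m) yt al w).1, hq0 w⟩ with hq
  set z : (Σ e, Fin (sz e)) ⊕ Fin m → Fin (lev D (2 * m - 1) + 1) := fun w =>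
    ⟨lev D ((key (n := m) al yt w).1 + (key (n := m) al yt w).2), Nat.lt_succ_of_le (lev_mono (hz0 w))⟩ with hz
  have hpa : ∀ w, p (a w) = p w := fun w => Fin.ext (by
    show (key (n := m) al yt (a w)).1 = (key (n := m) al yt w).1
    rw [(ha w).1, hkT])
  have hqb : ∀ w, q (b w) = q w := fun w => Fin.ext (by
    show (key (n := m) yt al (b w)).1 = (key (n := m) yt al w).1
    rw [(hb w).1, hkT])
  have hzab : ∀ w, z (a w) = z (b w) := fun w => Fin.ext (by
    show lev D ((key (n := m) al yt (a w)).1 + (key (n := m) al yt (a w)).2) =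
      lev D ((key (n := m) al yt (b w)).1 + (key (n := m) al yt (b w)).2)
    rw [hla, hzz (b w), hlb, hzT])
  have hzi : ∀ i : Fin m, ((z (Sum.inr i) : Fin _) : ℕ) = lev D (i + m) := fun i => rfl
  have hzai : ∀ i : Fin m, ((z (a (Sum.inr i)) : Fin _) : ℕ) = lev D i := fun i => by
    show lev D ((key (n := m) al yt (a (Sum.inr i))).1 + (key (n := m) al yt (a (Sum.inr i))).2) = lev D i
    rw [hla]
    rfl
  have hps : Function.Surjective p := fun i => ⟨Sum.inr i, rfl⟩
  have hqs : Function.Surjective q := fun i => ⟨Sum.inr i, rfl⟩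
  have hzs : Function.Surjective z := by
    intro v
    obtain ⟨s, h1, h2⟩ := lev_surj (D := D) (2 * m - 1) v (by have := v.2; omega)
    by_cases hs : s < m
    · exact ⟨a (Sum.inr ⟨s, hs⟩), Fin.ext (by rw [hzai]; exact h2)⟩
    · refine ⟨Sum.inr ⟨s - m, by omega⟩, Fin.ext ?_⟩
      rw [hzi]
      rw [← h2]
      congr 1
      show s - m + m = s
      omega
  have hcard : Fintype.card ((Σ e, Fin (sz e)) ⊕ Fin m) <
      Fintype.card (Fin m) + Fintype.card (Fin m) + Fintype.card (Fin (lev D (2 * m - 1) + 1)) := by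
    rw [Fintype.card_sum, Fintype.card_sigma]
    simp only [Fintype.card_fin]
    have := lev_card D (2 * m - 1)
    omega
  obtain ⟨C, ⟨w0, hw0⟩, hC, key1⟩ := Pool.Agent.Helper72.T1.slack_component a b p q z hpa hqb hzab hps hqs hzs hcard
    (fun w => Sum.elim (fun w => St w.1) (fun _ => τ) w) (fun w => Sum.elim (fun w => Sh w.1) (fun _ => OrderIso.refl X) w)
    (fun w => Sum.elim (fun w => Tl w.1) (fun _ => M) w) (fun w => Sum.elim (fun w => Tr w.1) (fun _ => OrderIso.refl X) w)
    (by
      rintro (w | i) x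
      · exact H w.1 x
      · show τ.symm x ≤ M.symm x
        rw [OrderIso.symm_apply_le]
        have h1 := hMτ (M.symm x)
        rwa [OrderIso.apply_symm_apply] at h1)
    (by
      intro w x
      obtain ⟨h1, h2, h3, h4⟩ := ha w
      rcases hw' : a w with w' | i'
      · rw [hw'] at h1 h2 h3 h4
        rcases w with w | i
        · simp only [key, keyT] at h1 h2 h4
          have c1 := w.2.2
          have c2 := w'.2.2
          exact hcol w.1 w'.1 (al w.1 + w.2) (by omega) (by omega) (by omega) (by omega) h2 h4 x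
        · simp only [key, keyT] at h1 h2 h4
          have c2 := w'.2.2
          exact hbot w'.1 i (by omega) (by omega) (fun j hj => h4 j (Nat.zero_le _) hj) x
      · rw [hw'] at h1 h2 h3 h4
        rcases w with w | i
        · simp only [key, keyT] at h1 h2 h4
          have c1 := w.2.2
          exact htop w.1 (al w.1 + w.2) (by omega) (by omega) h4 x
        · simp only [key, keyT] at h1 h2 h4
          exact hcol0 i i.2 (fun j hj => h4 j (Nat.zero_le _) hj) x)
    (by
      intro w x
      obtain ⟨h1, h2, h3, h4⟩ := hb w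
      rcases hw' : b w with w' | i'
      · rw [hw'] at h1 h2 h3 h4
        rcases w with w | i
        · simp only [key, keyT] at h1 h2 h4
          have c1 := w.2.2
          have c2 := w'.2.2
          exact hrow w.1 w'.1 (yt w.1 + w.2) (by omega) (by omega) (by omega) (by omega) h2
            (fun i hi1 hi2 e he => h4 i hi1 hi2 e ((hsw _ _ _).2 he)) x
        · simp only [key, keyT] at h1 h2 h4
          have c2 := w'.2.2
          exact hleft w'.1 i (by omega) (by omega)
            (fun j hj e he => h4 j (Nat.zero_le _) hj e ((hsw _ _ _).2 he)) x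
      · rw [hw'] at h1 h2 h3 h4
        rcases w with w | i
        · simp only [key, keyT] at h1 h2 h4
          have c1 := w.2.2
          exact hright w.1 (yt w.1 + w.2) (by omega) (by omega)
            (fun i hi1 hi2 e he => h4 i hi1 hi2 e ((hsw _ _ _).2 he)) x
        · simp only [key, keyT] at h1 h2 h4
          exact hrow0 i i.2 (fun j hj e he => h4 j (Nat.zero_le _) hj e ((hsw _ _ _).2 he)) x)
  obtain ⟨i, hi⟩ := col_outer (h := m) hyt hsz (fun w => ⟨(ha w).1, (ha w).2.1⟩) (fun w hw => (hC w hw).1) hw0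
  intro x
  have h1 := (key1 _ hi (τ x)).1
  have h2 : τ.symm (τ x) = M.symm (τ x) := h1
  rw [OrderIso.symm_apply_apply] at h2
  rw [h2, OrderIso.apply_symm_apply, ← h2]

end Pool.Agent.Helper71.PC
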